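import Mathlib
import Pool.Agent.Lib.helper23.BkB

namespace Pool.Agent.Results.MP_2bbbb5_co.OutdegFour

open Pool.Agent.Lib.helper23.BkA

theorem result :
    ∀ (V : Type) [Fintype V] (G : Digraph V),
      (∀ u w : V, G.Adj u w → ¬ G.Adj w u) →
      ∀ v : V, {w : V | G.Adj v w}.ncard ≤ 4 →
        ∃ m : ℕ, m ≤ {w : V | G.Adj v w}.ncard ∧
        ∃ p : Fin (m + 1) → V, p 0 = v ∧
          (∀ i : Fin m, G.Adj (p i.castSucc) (p i.succ)) ∧
          {w : V | G.Adj (p (Fin.last m)) w}.ncard ≤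
            {w : V | w ≠ p (Fin.last m) ∧ ¬ G.Adj (p (Fin.last m)) w ∧
              ∃ u : V, G.Adj (p (Fin.last m)) u ∧ G.Adj u w}.ncard := by
  intro V _ G h v hv
  have e1 : ∀ x : V, {w : V | G.Adj x w}.ncard = (N1 G x).card := by
    intro x
    rw [← Set.ncard_coe_finset]
    congr 1
    ext w; simp
  have e2 : ∀ x : V, {w : V | w ≠ x ∧ ¬ G.Adj x w ∧ ∃ u : V, G.Adj x u ∧ G.Adj u w}.ncard =
      (N2 G x).card := by
    intro x
    rw [← Set.ncard_coe_finset]
    congr 1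
    ext w
    rw [Finset.mem_coe, mem_N2]
    rfl
  rw [e1] at hv ⊢
  have hr : R G (N1 G v).card v := by
    generalize hk : (N1 G v).card = k at hv
    interval_cases k
    · exact P0 hk.le
    · exact P1 h hk.le
    · exact P2 h hk.le
    · exact P3 h hk.le
    · exact P4 h hk.le
  obtain ⟨m, hm, p, p0, pa, pg⟩ := path _ v hr
  refine ⟨m, hm, p, p0, pa, ?_⟩
  rw [e1, e2]
  exact pg

end Pool.Agent.Results.MP_2bbbb5_co.OutdegFour
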